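import Pool.Agent.helper1.FI3.SpecH

/-!
# OR3: orthogonality of non-conjugate columns
-/

set_option autoImplicit false

namespace Pool.Agent.FI3

open Pool.Agent.helper58.DC Pool.Agent.DI Pool.Agent.GR Pool.Agent.OB Pool.Agent.DR Pool.Agent.FI

section

variable {G : Type} [Group G]

theorem OR3_inj (w : G) : Function.Injective (fun ψ : G → ℂ => cjF w ψ) := by
  intro ψ ψ' h
  funext y
  have h1 := congrFun h (w * y * w⁻¹)
  simp only [cjF_apply] at h1
  have h2 : w⁻¹ * (w * y * w⁻¹) * w = y := by group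
  rwa [h2] at h1

theorem OR3_eS [Finite G] (w : G) (K' : Subgroup G) (S : Set (G → ℂ)) (y : G) :
    eS (cjS w K') ((fun ψ : G → ℂ => cjF w ψ) '' S) y = eS K' S (w⁻¹ * y * w) := by
  unfold eS
  rw [finsum_mem_image (OR3_inj w).injOn]
  have hc : Nat.card (cjS w K') = Nat.card K' :=
    Nat.card_congr (K'.equivMapOfInjective _ (MulAut.conj w).injective).toEquiv.symm
  rw [hc]
  congr 1
  refine finsum_congr fun ψ => finsum_congr fun _ => ?_
  simp only [cjF_apply]
  have h1 : w⁻¹ * 1 * w = 1 := by group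
  have h2 : w⁻¹ * y⁻¹ * w = (w⁻¹ * y * w)⁻¹ := by group
  rw [h1, h2]

end

theorem OR3 (hFEQ : FEQ_stmt) (hCOF : COF_stmt) (hRR2 : RR2_stmt) (hQEB : QEB_stmt) (hEPR : EPR_stmt)
    (hQFU : QFU3_stmt) : OR3_stmt := by
  classical
  intro p M hS G _ _ D x θ χ h P hP i hi a ha u hu hnc
  have hDL : D ≤ cz P := Q1_D_le h.rt hP
  have hDT : D ≤ TT M D θ ⊓ cz P := le_inf ((le_cz_of_com h.rt.com).trans cz_le_TT) hDL
  have hpg := h.rt.dfa.pgrp
  have h1r : PReg p (1 : G) := by
    unfold PReg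
    rw [orderOf_one, Nat.dvd_one]
    exact hS.pr.one_lt.ne'
  have key : ∀ z ∈ cz P, ∀ w ∈ cz P, z⁻¹ * a * z = u → w⁻¹ * a * w = u →
      InM M (co (rs a i) i z w) := by
    intro z hz w hw hzu hwu
    obtain ⟨j, hj1, -, -, hj4, hj5⟩ := hi.loc (Cz (cz P) a) ⟨a, ha, rfl⟩
    obtain ⟨j', hj1', -, -, hj4', hj5'⟩ := hi.loc (Cz (cz P) u) ⟨u, hu, rfl⟩
    have hwa : w * u * w⁻¹ = a := by
      rw [← hwu]
      group
    have hKK : cjS w (Cz (cz P) u) = Cz (cz P) a := by
      ext t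
      rw [mem_cjS, mem_Cz, mem_Cz]
      constructor
      · rintro ⟨h1, h2⟩
        constructor
        · have h3 := (cz P).mul_mem ((cz P).mul_mem hw h1) ((cz P).inv_mem hw)
          have h4 : w * (w⁻¹ * t * w) * w⁻¹ = t := by group
          rwa [h4] at h3
        · rw [← hwa]
          have h3 := congrArg (fun g => w * g * w⁻¹) h2
          have h4 : w * (u * (w⁻¹ * t * w)) * w⁻¹ = w * u * w⁻¹ * t := by group
          have h5 : w * (w⁻¹ * t * w * u) * w⁻¹ = t * (w * u * w⁻¹) := by group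
          rwa [h4, h5] at h3
      · rintro ⟨h1, h2⟩
        constructor
        · exact (cz P).mul_mem ((cz P).mul_mem ((cz P).inv_mem hw) h1) hw
        · rw [← hwu]
          have h4 : w⁻¹ * a * w * (w⁻¹ * t * w) = w⁻¹ * (a * t) * w := by group
          have h5 : w⁻¹ * t * w * (w⁻¹ * a * w) = w⁻¹ * (t * a) * w := by group
          rw [h4, h5, h2]
    have hz0 : co j j' z w = 0 := by
      rw [(hCOF G).2.2.2.2.1 j j' z w]
      have e2 : (fun y => eBl M (Cz (cz P) u) θ (w⁻¹ * y * w)) =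
          eS (Cz (cz P) a) ((fun ψ : G → ℂ => cjF w ψ) '' Bl M (Cz (cz P) u) θ) := by
        funext y
        rw [← hKK, OR3_eS]
      have e3 : cv (fun t => j' (w⁻¹ * t * w))
          (eS (Cz (cz P) a) ((fun ψ : G → ℂ => cjF w ψ) '' Bl M (Cz (cz P) u) θ)) =
          fun t => j' (w⁻¹ * t * w) := by
        rw [← e2, (hQEB G M D θ (fun y hy => IrrOn_zero h.rt.th hy) w).2]
        funext t
        rw [hj4']
      have e4 := hEPR G (Cz (cz P) a) (Bl M (Cz (cz P) a) θ)
        ((fun ψ : G → ℂ => cjF w ψ) '' Bl M (Cz (cz P) u) θ) (fun ψ hψ => hψ.1)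
        (by
          rintro _ ⟨ψ, hψ, rfl⟩
          have h3 := ((hFEQ G M w 1 ⊥ ⊥ (Cz (cz P) u) ψ ψ ψ).2.2.2.1).1 hψ.1
          rwa [hKK] at h3)
        (by
          rintro _ hψ ⟨ψ, hψ', rfl⟩
          have h3 := hQFU p M hS G D x θ χ h P hP u hu w hw (by rw [hwa]; exact ha) ψ hψ'.1 hψ'.2.symm
            (by rw [hwa]; exact hψ.2.symm)
          obtain ⟨k, hk, hkw⟩ := h3
          rw [mem_Cz] at hk
          refine hnc (k * w) (Subgroup.mem_inf.2 ⟨hkw, (cz P).mul_mem hk.1 hw⟩) ?_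
          have h4 : k * w * u * (k * w)⁻¹ = k * (w * u * w⁻¹) * k⁻¹ := by group
          rw [h4, ← hk.2, hwa]
          group)
        j (fun t => j' (w⁻¹ * t * w)) hj1.sup
        (fun y hy => hj1'.sup _ fun h3 => hy (by
          have h4 : y ∈ cjS w (Cz (cz P) u) := mem_cjS.2 h3
          rwa [hKK] at h4)) hj4 e3
      rw [e4]
      rfl
    have hd : co (rs a i) i z w = co (rs a i) i z w - co j j' z w := by rw [hz0, sub_zero]
    rw [hd]
    unfold co
    rw [← finsum_sub_distrib (Set.toFinite _) (Set.toFinite _)]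
    refine InM.finsum hS fun y => ?_
    by_cases hy : y ∈ Cz (cz P) a
    · have hy' := mem_Cz.1 hy
      have h2 : rs a i y = i y := by
        unfold rs
        exact if_pos hy'.2
      have h3 : w⁻¹ * (y⁻¹ * z) ∈ Cz (cz P) u := by
        rw [mem_Cz]
        refine ⟨(cz P).mul_mem ((cz P).inv_mem hw) ((cz P).mul_mem ((cz P).inv_mem hy'.1) hz), ?_⟩
        have h4 : u * (w⁻¹ * (y⁻¹ * z)) = w⁻¹ * (a * y⁻¹) * z := by
          rw [← hwu]
          group
        have h5 : w⁻¹ * (y⁻¹ * z) * u = w⁻¹ * (y⁻¹ * a) * z := by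
          rw [← hzu]
          group
        have h6 : a * y⁻¹ = y⁻¹ * a := by
          have h7 : Commute a y := hy'.2
          exact h7.inv_right.eq
        rw [h4, h5, h6]
      rw [h2]
      have h4 : i y * i (w⁻¹ * (y⁻¹ * z)) - j y * j' (w⁻¹ * (y⁻¹ * z)) =
          (i y - j y) * i (w⁻¹ * (y⁻¹ * z)) + j y * (i (w⁻¹ * (y⁻¹ * z)) - j' (w⁻¹ * (y⁻¹ * z))) := by
        ring
      rw [h4]
      exact (InM.mul_right hS (hj5 y hy) (hi.idm.int _)).add hS
        (InM.mul_left hS (hj1.int y) (hj5' _ h3))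
    · have h2 : rs a i y = 0 := by
        unfold rs
        split_ifs with h3
        · refine hi.idm.sup y fun h4 => hy (mem_Cz.2 ⟨h4, h3⟩)
        · rfl
      rw [h2, hj1.sup y hy, zero_mul, zero_mul, sub_self]
      exact InM.zero hS
  have h1 := hRR2 p M hS G (cz P) a (hDL ha) 1 (cz P).one_mem u (hDL hu) 1 (cz P).one_mem
    (PEl_of_mem hpg ha) (PEl_of_mem hpg hu) h1r h1r (Commute.one_right a) (Commute.one_right u) i i
    hi.idm hi.idm (fun y => by rw [mul_one]; exact hi.inv a (hDT ha) y)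
    (fun y => by rw [mul_one]; exact hi.inv u (hDT hu) y) key
  rwa [mul_one, mul_one] at h1

end Pool.Agent.FI3
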