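import Pool.Agent.helper1.FI3.SpecH
import Pool.Agent.helper12.FI3.SpecO

/-!
# Project fi3 (MP_baa4d7_al), block H3: the output QLA3
-/

set_option autoImplicit false

namespace Pool.Agent.FI3

open Pool.Agent.helper58.DC Pool.Agent.DI Pool.Agent.GR Pool.Agent.OB Pool.Agent.DR Pool.Agent.FI

theorem QLA3 (hQLS : QLS_stmt) : QLA3_stmt := by
  intro p M hS hp2 G _ _ D x θ χ h P hP
  exact hQLS p M hS hp2 G D x θ χ h.toLoS h.lo.ny h.good P hP

end Pool.Agent.FI3
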