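import Pool.Agent.helper12.FI.All
import Pool.Agent.helper59.FI3.AllP3
import Pool.Agent.helper1.FI3.QLA3
import Pool.Agent.helper68.FI3.TRW
import Pool.Agent.helper68.FI3.QNW
import Pool.Agent.helper27.FI3.QHG
import Pool.Agent.helper27.FI3.NZ3
import Pool.Agent.helper27.FI3.NU3
import Pool.Agent.helper6.FI3.HTU
import Pool.Agent.helper33.FI3.EPR
import Pool.Agent.helper1.FI3.OR3
import Pool.Agent.helper64.FI3.QLS

/-!
# Project fi3 (MP_baa4d7_al), block H3: assembly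
-/

set_option autoImplicit false

namespace Pool.Agent.FI3.AllH3

open Pool.Agent Pool.Agent.FI3 Pool.Agent.FI Pool.Agent.GR Pool.Agent.helper58.DC Pool.Agent.DI Pool.Agent.OB

theorem hTRW : TRW_stmt := TRW GR.All.dKYG AllR.rZEA
theorem hQHG : QHG_stmt := QHG AllB.dFWB AllQ2.dQAV AllB.dFWV GR.All.dCCI GR.All.dIDM
theorem hHTU : HTU_stmt := HTU hQHG AllQ2.dQH0 AllQ2.dQCG AllQ2.dQAV AllA.dBET
theorem hQNW : QNW_stmt := QNW AllQ.qQRS AllQ.qQCE AllR.rEVM GR.All.dIDM GR.All.dB2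
theorem hNZ3 : NZ3_stmt := NZ3 hHTU hTRW hQNW AllQ2.dQID AllR.rRR1
theorem hEPR : EPR_stmt := EPR GR.All.dIDM GR.All.dCCI GR.All.dCVF GR.All.dEXP
theorem hOR3 : OR3_stmt := OR3 AllC.cFEQ AllR.rCOF AllR.rRR2 AllQ2.dQEB hEPR AllP3.pQFU3
theorem hNU3 : NU3_stmt := NU3 AllR.rRR1 AllQ2.dQN1 AllP3.pQN23 AllP3.pQN33
theorem hQLS : QLS_stmt :=
  QLS AllQ2.dQID hNU3 hOR3 hNZ3 (AllQ2.eQHT AllQ.qQEV) AllP3.pDOR3 AllQ.qQDI AllQ2.dQCG (AllQ2.eQEU AllQ.qQEV)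
    aLA_LCG AllR.rEVM GR.All.dIDM
theorem hQLA3 : QLA3_stmt := QLA3 hQLS

end Pool.Agent.FI3.AllH3
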