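import Pool.Agent.helper70.FI3.SpecN3

/-!
# Project fi3 (MP_baa4d7_al), row QMY3
-/

set_option autoImplicit false

namespace Pool.Agent.FI3

open Pool.Agent.helper58.DC Pool.Agent.DI Pool.Agent.GR Pool.Agent.OB Pool.Agent.DR Pool.Agent.FI

open Classical in
/-- the exchange of sums -/
theorem QMY3_sum {α β : Type} (T : Finset α) (Q : Finset β) (S : β → α → Prop) (F : α → α → ℂ)
    (w : β → ℂ) (N : ℂ) (hN : ∀ η ∈ T, N = ∑ q ∈ Q, if S q η then w q else 0)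
    (hF : ∀ q ∈ Q, ∀ η ∈ T, S q η → ∀ η' ∈ T, ¬ S q η' → F η η' = 0) :
    N * ∑ η ∈ T, ∑ η' ∈ T, F η η' =
      ∑ q ∈ Q, w q * ∑ η ∈ T.filter (fun η => S q η), ∑ η' ∈ T.filter (fun η' => S q η'), F η η' := by
  have h1 : ∀ η ∈ T, N * ∑ η' ∈ T, F η η' = ∑ q ∈ Q, if S q η then w q * ∑ η' ∈ T, F η η' else 0 := by
    intro η hη
    rw [hN η hη, Finset.sum_mul]
    refine Finset.sum_congr rfl fun q _ => ?_
    split_ifs
    · rfl
    · rw [zero_mul]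
  rw [Finset.mul_sum, Finset.sum_congr rfl h1, Finset.sum_comm]
  refine Finset.sum_congr rfl fun q hq => ?_
  rw [← Finset.sum_filter, ← Finset.mul_sum]
  congr 1
  refine Finset.sum_congr rfl fun η hη => ?_
  obtain ⟨hηT, hηS⟩ := Finset.mem_filter.1 hη
  rw [Finset.sum_filter]
  refine Finset.sum_congr rfl fun η' hη' => ?_
  by_cases h2 : S q η'
  · rw [if_pos h2]
  · rw [if_neg h2, hF q hq η hηT hηS η' hη' h2]

theorem QMY3 (hQMS : QMS_stmt) (hQWT : QWT3_stmt) (hSUC : SUC3_stmt) (hQEI : QEI_stmt) (_hFEQ : FEQ_stmt)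
    (hB2 : B2_stmt) : QMY3_stmt := by
  classical
  intro p M hS G _ _ D x θ χ lo P hP y hy hyp χ' hχ'
  have hDL : D ≤ cz P := Q1_D_le lo.rt hP
  have hKL : Cz (cz P) y ≤ cz P := inf_le_left
  have hth : ∀ g, g ∉ cz D → θ g = 0 := ((hB2 G (cz D)).2 θ lo.rt.th).2.2.2.1
  have hTfin : (BlC M (cz P) θ y).Finite := ((hB2 G (Cz (cz P) y)).1).subset fun _ h => h.1
  have hQfin : {q : G × G | q.1 ∈ cz P ∧ q.2 ∈ D ∧ q.1 * q.2 * q.1⁻¹ = y}.Finite := Set.toFinite _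
  -- `cjF l θ` vanishes outside `K`
  have hvan : ∀ q : G × G, q.1 ∈ cz P → q.2 ∈ D → q.1 * q.2 * q.1⁻¹ = y → ∀ g, g ∉ Cz (cz P) y → cjF q.1 θ g = 0 := by
    intro q hq1 hq2 hq3 g hg
    rw [cjF_apply]
    refine hth _ fun hmem => hg ?_
    refine Subgroup.mem_inf.2 ⟨?_, ?_⟩
    · have h1 := (cz P).mul_mem ((cz P).mul_mem hq1 (Q1_C_le hP hmem)) ((cz P).inv_mem hq1)
      have h2 : q.1 * (q.1⁻¹ * g * q.1) * q.1⁻¹ = g := by group
      rwa [h2] at h1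
    · rw [Subgroup.mem_centralizer_iff]
      intro z hz
      rw [Set.mem_singleton_iff] at hz
      rw [hz, ← hq3]
      have h1 := (Subgroup.mem_centralizer_iff.1 hmem) q.2 hq2
      calc q.1 * q.2 * q.1⁻¹ * g = q.1 * (q.2 * (q.1⁻¹ * g * q.1)) * q.1⁻¹ := by group
        _ = q.1 * ((q.1⁻¹ * g * q.1) * q.2) * q.1⁻¹ := by rw [h1]
        _ = g * (q.1 * q.2 * q.1⁻¹) := by group
  -- `SB M L (cjF l θ) θ`
  have hSBL : ∀ l ∈ cz P, SB M (cz P) (cjF l θ) θ := by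
    intro l hl z hz hi
    rw [cc_funMap]
    have h1 : (fun x => z (l * x * l⁻¹)) = z := funext fun x => hz.1 l hl x
    rw [h1]
    exact ⟨0, M.zero_mem, by simp⟩
  have hsub : ∀ q : G × G, q.1 ∈ cz P → q.2 ∈ D → q.1 * q.2 * q.1⁻¹ = y → ∀ η ∈ IrrOn (Cz (cz P) y),
      SB M (Cz (cz P) y) (cjF q.1 θ) η → SB M (cz P) η θ := by
    intro q hq1 hq2 hq3 η hη hs
    have h1 : SB M (cz P) η (cjF q.1 θ) := Q1_mono hKL ((hB2 G (Cz (cz P) y)).2 η hη).2.2.2.1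
      (hvan q hq1 hq2 hq3) hs.symm
    exact h1.trans (hSBL q.1 hq1)
  -- the weights
  have hcount : ∀ η ∈ BlC M (cz P) θ y, (Nat.card (Cz (cz P) y) : ℂ) =
      ∑ q ∈ hQfin.toFinset, if SB M (Cz (cz P) y) (cjF q.1 θ) η then
        (1 : ℂ) / (wt M D (cz P) θ q.2 : ℂ) else 0 := by
    intro η hη
    have h1 := hQWT p M hS G D x θ χ lo P hP y hy hyp η hη.1 hη.2
    rw [← h1, ← Finset.sum_filter]
    have h2 : ({q : G × G | q.1 ∈ cz P ∧ q.2 ∈ D ∧ q.1 * q.2 * q.1⁻¹ = y ∧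
        SB M (Cz (cz P) y) (cjF q.1 θ) η}) =
        ((hQfin.toFinset.filter fun q => SB M (Cz (cz P) y) (cjF q.1 θ) η : Finset (G × G)) : Set (G × G)) := by
      ext q
      simp only [Set.mem_ofPred_eq, Finset.coe_filter, Set.Finite.mem_toFinset, and_assoc]
    rw [h2, finsum_mem_coe_finset]
  -- the contributions
  have hSu : ∀ q ∈ hQfin.toFinset, Su p M (cz P) θ χ' q.2 =
      ∑ η ∈ hTfin.toFinset.filter (fun η => SB M (Cz (cz P) y) (cjF q.1 θ) η),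
      ∑ η' ∈ hTfin.toFinset.filter (fun η => SB M (Cz (cz P) y) (cjF q.1 θ) η),
        (mt (Cz (cz P) y) χ' η * (η y / η 1)) * (starRingEnd ℂ) (mt (Cz (cz P) y) χ' η' * (η' y / η' 1)) *
          EE p (Cz (cz P) y) η η' := by
    intro q hq
    obtain ⟨hq1, hq2, hq3⟩ := hQfin.mem_toFinset.1 hq
    rw [hSUC p M G (cz P) θ q.2 (hDL hq2) q.1 hq1 χ' hχ'.1 y hq3.symm]
    have hset : Bl M (Cz (cz P) y) (cjF q.1 θ) =
        ((hTfin.toFinset.filter (fun η => SB M (Cz (cz P) y) (cjF q.1 θ) η) : Finset (G → ℂ)) : Set (G → ℂ)) := by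
      ext η
      rw [Finset.coe_filter]
      constructor
      · rintro ⟨h2, h3⟩
        exact ⟨hTfin.mem_toFinset.2 ⟨h2, hsub q hq1 hq2 hq3 η h2 h3.symm⟩, h3.symm⟩
      · rintro ⟨h1, h3⟩
        exact ⟨(hTfin.mem_toFinset.1 h1).1, h3.symm⟩
    rw [hset, finsum_mem_coe_finset]
    exact Finset.sum_congr rfl fun η _ => finsum_mem_coe_finset _ _
  have key := QMY3_sum hTfin.toFinset hQfin.toFinset (fun q η => SB M (Cz (cz P) y) (cjF q.1 θ) η)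
    (fun η η' => (mt (Cz (cz P) y) χ' η * (η y / η 1)) *
      (starRingEnd ℂ) (mt (Cz (cz P) y) χ' η' * (η' y / η' 1)) * EE p (Cz (cz P) y) η η')
    (fun q => (1 : ℂ) / (wt M D (cz P) θ q.2 : ℂ)) (Nat.card (Cz (cz P) y) : ℂ)
    (fun η hη => hcount η (hTfin.mem_toFinset.1 hη))
    (by
      intro q _ η hη hs η' hη' hs'
      have h1 := (hQEI p M hS G (Cz (cz P) y) (Bl M (Cz (cz P) y) (cjF q.1 θ))
        (Q1_BC M (Cz (cz P) y) y (cjF q.1 θ)).1).2.1 η ⟨(hTfin.mem_toFinset.1 hη).1, hs.symm⟩ η'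
        (hTfin.mem_toFinset.1 hη').1 (fun h => hs' h.2.symm)
      change _ * EE p (Cz (cz P) y) η η' = 0
      rw [h1.1, mul_zero])
  rw [hQMS p M hS G (cz P) y hy hyp θ χ' hχ', finsum_mem_eq_finite_toFinset_sum _ hTfin,
    finsum_mem_eq_finite_toFinset_sum _ hQfin]
  have h5 : ∀ η ∈ hTfin.toFinset, (∑ᶠ η' ∈ BlC M (cz P) θ y,
      (mt (Cz (cz P) y) χ' η * (η y / η 1)) * (starRingEnd ℂ) (mt (Cz (cz P) y) χ' η' * (η' y / η' 1)) *
        EE p (Cz (cz P) y) η η') = ∑ η' ∈ hTfin.toFinset,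
      (mt (Cz (cz P) y) χ' η * (η y / η 1)) * (starRingEnd ℂ) (mt (Cz (cz P) y) χ' η' * (η' y / η' 1)) *
        EE p (Cz (cz P) y) η η' := fun η _ => finsum_mem_eq_finite_toFinset_sum _ hTfin
  rw [Finset.sum_congr rfl h5, key]
  refine Finset.sum_congr rfl fun q hq => ?_
  rw [hSu q hq]
  ring

end Pool.Agent.FI3
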