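import Mathlib
import Pool.Agent.helper59.FI3.SpecP3
import Pool.Agent.helper12.FI3.DefsLA
import Pool.Agent.helper1.FI.BaseQ2
import Pool.Agent.helper1.FI.SpecQ2
import Pool.Agent.helper40.FIB.QLB

/-!
# Project fi3 (MP_baa4d7_al), block H3: nonvanishing of `d^u`, and the data of block LA3

RULES FOR ROWS. File `Pool/Agent/<seat>/FI3/XXX.lean` with

  import Pool.Agent.helper1.FI3.SpecH
  set_option autoImplicit false
  namespace Pool.Agent.FI3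
  open Pool.Agent.helper58.DC Pool.Agent.DI Pool.Agent.GR Pool.Agent.OB Pool.Agent.DR Pool.Agent.FI
  theorem XXX (hYYY : YYY_stmt) ... : XXX_stmt := ...
  end Pool.Agent.FI3

auxiliary lemmas prefixed `XXX_`, no sorry, no double quotes in the file, no `convert`, no `congr!`. The rows named in the docstring are
hypotheses. All rows of version 1 (`helper1/FI/SpecQ2`: `QAV QCG QH0 QID QHT ..`; `helper83/FI/SpecR`: `COF EVM RR1 RR2 CJI CHC ZEA RPY TRP ..`;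
`helper70/FI/SpecQ1`: `QRS QCE QDI QEU ..`; `helper59/FI/SpecB`: `FWB FWV BET ..`; `helper40/FI/SpecLA`: `LCG ..`), of version 3 block P3
(`helper59/FI3/SpecP3`: `QFU3 QN23 QN33 DOR3`) and of GR, DI (`KYG CVF CCI IDM EXP EIN ..`) may be added as further hypotheses (no circles: a row
of this file may use only rows of this file which stand BEFORE it).

READY TO USE: `helper1/FI/BaseQ2` (calculus of `EqmF`, `rsk`, `cv`, `Inv`, `eBl`), `helper59/FI/Base` (`IrrOn_*`, `SBIb`, `cz_le_TT`, `cj_*`, ..),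
`helper59/FI3/DefsP3` (`mem_YY`, `YY_le`, `P3_TL`), `helper70/FI/SpecQ1` (`Q1_D_le`, `Q1_C_le`, `Q1_C_Cz`, `Q1_mono`, `Q1_BC`), `helper40/FIB/QLB`
(`QLA_form`, `QLA_h1`, `QLA_conj`, `QLA_cen`, `QLA_out`, `QLA_orth`: proofs to copy), `helper12/FI/QCC` (`QCC`: `ψ (s * h) = lv l s * ψ h` for
central `s`), `helper12/FI/QI0` (`QI0`: the group `I`), `helper40/FI/Basic` (`lv_modM`, ..).

NOTATION. `C = cz D`, `T = TT M D θ`, `L = cz P`, `K = Cz L u`, `Y = YY M D θ`, `eBl M K θ` the idempotent of the block `Bl M K θ`,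
`QI M D L θ i`: `i` is the idempotent of version 1 (`helper1/FI/DefsQ2`). `LoS`: the local data (`helper59/FI3/DefsP3`).
-/

set_option autoImplicit false

namespace Pool.Agent.FI3

open Pool.Agent.helper58.DC Pool.Agent.DI Pool.Agent.GR Pool.Agent.OB Pool.Agent.DR Pool.Agent.FI

/-! ## 1. Values at a `p`-regular element -/

/-- **TRW** (short to medium; from KYG of GR, ZEA; compare PRJ and TRP: `Pool/Agent/helper44/FIB/PRJ.lean`, `Pool/Agent/helper49/FIB/TRP.lean`). The trace of `w i` depends only on the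
`p`-regular values. Proof: (1) let `g ∈ H` be not `p`-regular. `g⁻¹` is not `p`-regular either; write `g⁻¹ = y v`, `y ≠ 1` the `p`-part, `v` the `p`-regular part (both powers of `g⁻¹`, as in PRJ).
KYG for `u := i`, `y`, `v`, `y' = 1`, `v' = w⁻¹` (`w⁻¹` is `p`-regular and `i` is invariant under conjugation by `w⁻¹`; the last condition is empty since `z⁻¹ y z ≠ 1`) and ZEA:
`∑_{z ∈ H} i (z⁻¹ * g * z * w⁻¹) = 0`. (2) Let `f = ψ - ψ'`: invariant under `H`, zero on the `p`-regular elements of `H`. `|H| * ev f i w = ∑_{z ∈ H} ∑_x i x * f (w x)`; substitute `x = w⁻¹ (z⁻¹ g z)`: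
`f (w x) = f (z⁻¹ g z) = f g`, and `i (w⁻¹ (z⁻¹ g z)) = i (z⁻¹ g z w⁻¹)` (conjugation by `w`). So it is `∑_g f g * ∑_{z ∈ H} i (z⁻¹ g z w⁻¹)`; every term is `0`: for `g ∉ H` also `z⁻¹ g z w⁻¹ ∉ H`; for `g ∈ H`
`p`-regular `f g = 0`; otherwise (1). -/
def TRW_stmt : Prop :=
  ∀ (p : ℕ) (M : Ideal (integralClosure ℤ ℂ)), Setup p M → ∀ (G : Type) [Group G] [Finite G]
    (H : Subgroup G) (i : G → ℂ), Idm M H i → ∀ w ∈ H, PReg p w → (∀ x, i (w * x * w⁻¹) = i x) →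
    ∀ ψ ψ' : G → ℂ, (∀ h ∈ H, ∀ x, ψ (h * x * h⁻¹) = ψ x) → (∀ h ∈ H, ∀ x, ψ' (h * x * h⁻¹) = ψ' x) →
    (∀ v ∈ H, PReg p v → ψ v = ψ' v) → ev ψ i w = ev ψ' i w

/-- **QHG** (medium; from FWB, QAV, FWV, CCI, IDM). This is QH1 of version 1 (`Pool/Agent/helper28/FIB/QH1.lean`) for an arbitrary element `g ∈ cz D` instead of `w`, without the last step: COPY THAT PROOF.
Only change: for `t ∈ N = K ⊓ nz D` with `t ∈ TT M D θ` the value is `cc (cjF t⁻¹ θ) (y ↦ e (y g⁻¹)) = cc (cjF t⁻¹ θ) e * ((cjF t⁻¹ θ) g / (cjF t⁻¹ θ) 1) = θ (t g t⁻¹) / θ 1` (FWV, IDM), for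
`t ∉ TT M D θ` it is `0`. (`g` commutes with the elements of `D`: that is all that was used of `w`, and `PReg`, `Good` only in the last step.) -/
def QHG_stmt : Prop :=
  ∀ (p : ℕ) (M : Ideal (integralClosure ℤ ℂ)), Setup p M → ∀ (G : Type) [Group G] [Finite G]
    (D K : Subgroup G), IsPGroup p D → (∀ c ∈ D, ∀ d ∈ D, c * d = d * c) → cz D ≤ K →
    ∀ θ ∈ IrrOn (cz D), ∀ g ∈ cz D, ∀ j : G → ℂ,
    (∀ y, y ∉ K → j y = 0) → (∀ y, IntAt M (j y)) → Inv (cz D) j →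
    (∀ y ∈ cz D, InM M (j y - eBl M (cz D) θ y)) →
    CF K (trL K D (fun y => j (y * g⁻¹))) ∧ (∀ y, IntAt M (trL K D (fun y => j (y * g⁻¹)) y)) ∧
    InM M (cc θ (trL K D (fun y => j (y * g⁻¹))) -
      (∑ᶠ t ∈ ((TT M D θ ⊓ K : Subgroup G) : Set G), θ (t * g * t⁻¹) / θ 1) / Nat.card D)

/-- **HTU** (medium; from QHG, QH0, QCG, QAV, BET; compare HTI: `Pool/Agent/helper65/FIB/HTI.lean`). Proof: `w`, `n = θ 1`, `n |D| k = |C|`, `p ∤ k`, `¬ InM (θ w)`, `Good p M D C θ` from QCG. Let `g = u w ∈ C`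
(`D ≤ C`), `q = trL K D (y ↦ j (y g⁻¹))`, `T_K = TT M D θ ⊓ K ≥ C`. Suppose `ev ψ j g = 0`. QH0 for `g` instead of `w`: `cc ψ q = 0`. `SBIb` (`CF K q`, `IntAt`: QHG): `cc ψ q - cc θ q` is `InM`. So by QHG
`S = (∑_{t ∈ T_K} θ (t g t⁻¹) / θ 1) / |D|` is `InM`. For `t ∈ T_K`: `t g t⁻¹ = (t u t⁻¹) (t w t⁻¹)`, `t u t⁻¹ ∈ D`, so with `lam d = θ d / θ 1` (QCC for `S = D`, `H = C`: `θ (d h) = lam d * θ h`)
`θ (t g t⁻¹) = lam (t u t⁻¹) * θ (t w t⁻¹) = lam (t u t⁻¹) * θ w` (`Good.reg` for `cjF t⁻¹ θ`, `θ ∈ Bl M C θ` at the `p`-regular element `w`). `1 / (|D| n) = k / |C|`, so `S = ((∑_{t ∈ T_K} lam (t u t⁻¹)) / |C|) * k * θ w`.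
Further `(∑_{t ∈ T_K} (lam (t u t⁻¹) - 1)) / |C|` is `InM` by QAV (second item: `C ≤ T_K`; `c u c⁻¹ = u` for `c ∈ C`; `lam d` is a root of unity of `p`-power order, congruent to `1`: `lv_modM`), and `|T_K| / |C| = r` is a natural
number prime to `p` (`HTI_card`; `r` divides `C.relIndex (TT M D θ)`, BET). So `r * k * θ w` is `InM`: contradiction (`InM.or`, `InM.natCast`, `θ w` is integral and not `InM`). -/
def HTU_stmt : Prop :=
  ∀ (p : ℕ) (M : Ideal (integralClosure ℤ ℂ)), Setup p M → ∀ (G : Type) [Group G] [Finite G]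
    (D : Subgroup G) (x : G) (θ χ : G → ℂ), Rt p M D x θ χ → ∃ w ∈ cz D, PReg p w ∧
    ∀ K : Subgroup G, cz D ≤ K → ∀ j : G → ℂ, Idm M K j → Inv (cz D) j →
    (∀ y ∈ cz D, InM M (j y - eBl M (cz D) θ y)) → ∀ ψ ∈ Bl M K θ, ∀ u ∈ D, ev ψ j (u * w) ≠ 0

/-- **QNW** (short; from QRS, QCE, EVM, IDM; this is QN1 of version 1, `Pool/Agent/helper48/FIB/QN1.lean`, with an element `w`). Proof: `K = Cz L u`. For `y ∈ K`: `φ (u w y) = ∑_{ψ ∈ IrrOn K} mt K φ ψ * ψ (u (w y))`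
(QRS) and `ψ (u (w y)) = (ψ u / ψ 1) * ψ (w y)` (QCE: `u` is central in `K`). So `ev φ j (u w) = ∑_ψ mt K φ ψ * (ψ u / ψ 1) * ev ψ j w`. For `ψ ∉ Bl M K θ`: `ev ψ j w = ev ψ (cv j h) w = cc ψ h * ev ψ j w = 0`, `h = eBl M K θ`
(EVM, IDM). -/
def QNW_stmt : Prop :=
  ∀ (G : Type) [Group G] [Finite G] (M : Ideal (integralClosure ℤ ℂ)) (L : Subgroup G) (θ : G → ℂ),
    ∀ u ∈ L, ∀ w ∈ Cz L u, ∀ j : G → ℂ, (∀ y, y ∉ Cz L u → j y = 0) → cv j (eBl M (Cz L u) θ) = j →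
    ∀ c : ℂ, (∀ ψ ∈ Bl M (Cz L u) θ, ev ψ j w = c) → ∀ φ ∈ IrrOn L,
    ev φ j (u * w) = c * dd M (Cz L u) θ φ u

/-- **NZ3** (medium; from HTU, TRW, QNW, QID, RR1). NONVANISHING. Proof: `L = cz P`, `K = Cz L u`, `C = cz D ≤ K ≤ L` (`Q1_C_Cz`), `D ≤ L` (`Q1_D_le`). `i` from QID, `j` from `QI.loc` for `K`, `w` from HTU. HTU for `L`, `i`
(`QI.idm`, `QI.inv` with `C ≤ TT ⊓ L`, `QI.cen`): `ev ψ i (u w) ≠ 0`. RR1 for `H = L`, `y = u`, `v = w`, `i`, `i' = j` (`PEl p u`: `D` is a `p`-group; `Idm M L j` as `K ≤ L`; `i`, `j` are invariant under `u w ∈ C`;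
`i - j` is `InM` on `K`): `ev ψ i (u w) = ev ψ j (u w)`. TRW for `H = K`, `j`, `w`: for all `ψ₁ ∈ Bl M K θ` the value `ev ψ₁ j w` is the same number `c` (`Good.reg`; `Bl M K θ` is not empty by `Good.card`). QNW:
`ev ψ j (u w) = c * dd M K θ ψ u`. -/
def NZ3_stmt : Prop :=
  ∀ (p : ℕ) (M : Ideal (integralClosure ℤ ℂ)), Setup p M → ∀ (G : Type) [Group G] [Finite G]
    (D : Subgroup G) (x : G) (θ χ : G → ℂ), Rt p M D x θ χ → ∀ P ≤ D, ∀ u ∈ D,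
    Good p M D (Cz (cz P) u) θ → ∀ ψ ∈ Bl M (cz P) θ, dd M (Cz (cz P) u) θ ψ u ≠ 0

/-! ## 2. Orthogonality -/

/-- **EPR** (short; from IDM, CCI, CVF, EXP). The idempotents of disjoint sets of characters are orthogonal, and functions below them too. Proof: `cv (eS K S) (eS K S')` is a class function of `K` (CVF, IDM) with
`cc ψ = [ψ ∈ S] [ψ ∈ S'] = 0` (CCI (2), IDM), so it is `0` (EXP). `cv j j' = cv (cv j h) (cv j' h') = cv (cv j j') (cv h h') = 0`: `h` is a class function of `K` and commutes with `j'` (CVF). -/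
def EPR_stmt : Prop :=
  ∀ (G : Type) [Group G] [Finite G] (K : Subgroup G) (S S' : Set (G → ℂ)), S ⊆ IrrOn K → S' ⊆ IrrOn K →
    (∀ ψ ∈ S, ψ ∉ S') → ∀ j j' : G → ℂ, (∀ y, y ∉ K → j y = 0) → (∀ y, y ∉ K → j' y = 0) →
    cv j (eS K S) = j → cv j' (eS K S') = j' → cv j j' = 0

/-- **OR3** (medium; from RR2, COF, EPR, QFU3; conjugation facts: FEQ of `helper58/FI/SpecC`, `QEB` (second item) of `helper1/FI/SpecQ2`; compare `QLA_orth` in `helper40/FIB/QLB`). ORTHOGONALITY of the columns `a`, `u ∈ D` which are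
not conjugate under `T_L = TT M D θ ⊓ L`. Proof: `L = cz P`, RR2 for `H = L`, `y = a`, `v = 1`, `y' = u`, `v' = 1`, `i`, `j := i` (`PEl`: `D` is a `p`-group; `i` is invariant under `D ≤ C ≤ T_L`). It remains to show: if `z, w ∈ L`,
`z⁻¹ a z = u = w⁻¹ a w`, then `co (rs a i) i z w` is `InM`. Let `K = Cz L a`, `K' = Cz L u = w⁻¹ K w`, `j`, `j'` from `QI.loc` for `K`, `K'`. `co (rs a i) i z w = ∑_x (rs a i) x * i (w⁻¹ (x⁻¹ z))`; for `x ∈ K` the element `w⁻¹ x⁻¹ z` is in `L` and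
commutes with `u` (`w⁻¹ x⁻¹ z u = w⁻¹ x⁻¹ a z = w⁻¹ a x⁻¹ z = u w⁻¹ x⁻¹ z`), so it is in `K'`, and for `x ∉ K` the first factor is `0` (`i` is supported on `L`). So modulo `InM` it is `∑_{x ∈ K} j x * j' (w⁻¹ (x⁻¹ z)) = co j j' z w`
(`j` is supported on `K`; products: `InM.mul_left`, all values `IntAt`) `= cv j j'' (z w⁻¹)` with `j'' t = j' (w⁻¹ t w)` (COF, fifth item). `j''` is supported on `w K' w⁻¹ = K`, and `cv j'' h'' = j''` with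
`h'' t = eBl M K' θ (w⁻¹ t w)` (QEB, second item, with `w`) `= eS K S'' t`, `S'' = cjF w '' Bl M K' θ ⊆ IrrOn K` (FEQ; definition of `eS`; `|K'| = |K|`). CLAIM: `Bl M K θ` and `S''` are disjoint; then `cv j j'' = 0` by EPR and we are done. If
`ψ' ∈ Bl M K' θ` and `cjF w ψ' ∈ Bl M K θ` then QFU3 with `l = w` (`w u w⁻¹ = a ∈ D`; `SB M K' θ ψ'`, `SB M K θ (cjF w ψ')` by `SB.symm`) gives `k ∈ K` with `t = k w ∈ TT M D θ`; `t ∈ L` and `t u t⁻¹ = k a k⁻¹ = a`, which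
was excluded. -/
def OR3_stmt : Prop :=
  ∀ (p : ℕ) (M : Ideal (integralClosure ℤ ℂ)), Setup p M → ∀ (G : Type) [Group G] [Finite G]
    (D : Subgroup G) (x : G) (θ χ : G → ℂ), LoS p M D x θ χ → ∀ P ≤ D, ∀ i : G → ℂ,
    QI M D (cz P) θ i → ∀ a ∈ D, ∀ u ∈ D, (∀ t ∈ TT M D θ ⊓ cz P, t * u * t⁻¹ ≠ a) →
    ∑ᶠ φ ∈ IrrOn (cz P), ev φ i a * ev φ i u⁻¹ = 0

/-! ## 3. The integers `n u` and the data of block LA3 -/

/-- **NU3** (short to medium; from RR1, QN1, QN23, QN33; this is QNU of version 1, `Pool/Agent/helper22/FIB/QNU.lean`, for the `u ∉ Y`). Proof: `L = cz P`. For `u ∈ D`, `u ∉ Y`: `K = Cz L u = cz (P ⊔ zpowers u)` (`cz_sup_zpowers`) is good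
(`P ⊔ zpowers u ≤ D` is not contained in `Y`). For every subgroup `K` of the form `Cz L u`, `u ∈ D`, `u ∉ Y`, choose `j_K` from `QI.loc` and `N_K` from QN23 (`K ≥ C`; on `C` `j ≡ i ≡ e`); let `n u = N_K` for `K = Cz L u` (choice over
subgroups, so `n` depends only on `Cz L u`). RR1 for `H = L`, `y = u`, `v = 1`, `i`, `i' = j_K`: `ev φ i u = ev φ j_K u = n u * θ 1 * dd M K θ φ u` by QN1 with `c = N_K * θ 1`; `θ 1 ≠ 0`. `n (t u t⁻¹) = n u`: `t u t⁻¹ ∈ D`, and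
`t u t⁻¹ ∉ Y` (otherwise `u = t⁻¹ (t u t⁻¹) t = t u t⁻¹ ∈ Y`), QN33. `n (u ^ s) = n u`: `Cz L (u ^ s) = Cz L u` (BaseQ2 `Cz_pow`) and `u ^ s ∉ Y` (`u` is a power of `u ^ s`). -/
def NU3_stmt : Prop :=
  ∀ (p : ℕ) (M : Ideal (integralClosure ℤ ℂ)), Setup p M → ∀ (G : Type) [Group G] [Finite G]
    (D : Subgroup G) (x : G) (θ χ : G → ℂ), LoS p M D x θ χ →
    (∀ Q ≤ D, ¬ Q ≤ YY M D θ → Good p M D (cz Q) θ) → ∀ P ≤ D, ∀ i : G → ℂ, QI M D (cz P) θ i →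
    ∃ n : G → ℤ, ∀ u ∈ D, u ∉ YY M D θ → ¬ (p : ℤ) ∣ n u ∧
      (∀ φ ∈ IrrOn (cz P), ev φ i u / θ 1 = n u * dd M (Cz (cz P) u) θ φ u) ∧
      (∀ t ∈ TT M D θ ⊓ cz P, n (t * u * t⁻¹) = n u) ∧ ∀ s : ℕ, ¬ p ∣ s → n (u ^ s) = n u

/-- **QLS** (medium; from QID, NU3, OR3, NZ3, QHT, DOR3, QDI, QCG, QEU, LCG, EVM, IDM; COPY the proof of QLA of version 1: `Pool/Agent/helper40/FIB/QLA.lean`, lemmas in `helper40/FIB/QLB`). Proof: `L = cz P`, `T = TT M D θ ≤ L` (`P ≤ Y`: all `t ∈ T`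
commute with the elements of `P`), so `T ⊓ L = T`. `i` from QID (`P ≤ Y ≤ D`), `n` from NU3, `I` from `QI0 D T` (`T ≤ nz D`), `β ψ u = ev ψ i u / θ 1`. `set odd com pg`: clear. `zy`: `z ∈ Zc D L` commutes with `T ≤ L`. `ne`: `¬ D ≤ Y`. `cop`: `LoS.bet`.
`fz`: `mem_YY`. `fr`: `sfr` (if `s u = u s`, `u ∉ Y` then `s ∈ cz D`, so the automorphism is `1`). `h1`: `QLA_h1`. `h2`: `ev ψ i (t u t⁻¹) = ev ψ i u` (`QI.inv`, `ψ` is a class function of `L`). `h3a`-`h3d`: NU3. `h4a`: OR3 (`t u t⁻¹ ≠ a` for all `t ∈ T`),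
the sum over `IrrOn L` is the sum over `Bl M L θ` (`QLA_out`), `ev ψ i u⁻¹ = conj (ev ψ i u)` (`QLA_conj`), as in `QLA_orth`. `h4b`: DOR3, second item, `Good p M D (Cz L u) θ` as in NU3. `h5`: `QLA_cen` for `Zc D L`. `h6`: some `u ∈ D`, `u ∉ Y`; NZ3.
`h7`: QDI. THE EQUIVALENCE: by QCC for `S = Zc D L`, `H = L` there is `l'` with `ψ (z g) = lv l' z * ψ g` for all `g`, hence `β ψ (z u) = lv l' z * β ψ u`; `β ψ 1 = N ≠ 0` and `ψ 1 ≠ 0`, so both sides say `l' = l` on `Zc D L`. LAST ITEM: QHT. -/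
def QLS_stmt : Prop :=
  ∀ (p : ℕ) (M : Ideal (integralClosure ℤ ℂ)), Setup p M → p ≠ 2 → ∀ (G : Type) [Group G] [Finite G]
    (D : Subgroup G) (x : G) (θ χ : G → ℂ), LoS p M D x θ χ → ¬ D ≤ YY M D θ →
    (∀ Q ≤ D, ¬ Q ≤ YY M D θ → Good p M D (cz Q) θ) → ∀ P ≤ YY M D θ,
    ∃ (I : Subgroup (MulAut D)) (β : Bl M (cz P) θ → D → ℂ) (n : D → ℤ),
      Nat.card I = iI M D θ ∧
      (∀ σ ∈ I, ∃ t ∈ TT M D θ, ∀ u : D, ((σ u : D) : G) = t * u * t⁻¹) ∧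
      (∀ t ∈ TT M D θ, ∃ σ ∈ I, ∀ u : D, ((σ u : D) : G) = t * u * t⁻¹) ∧
      LAD3 p M ((Zc D (cz P)).subgroupOf D) ((YY M D θ).subgroupOf D) I β
        (fun ψ u => dd M (Cz (cz P) u) θ ψ u) n ∧
      (∀ (ψ : Bl M (cz P) θ) (l : D →* ℂˣ),
        (∀ z ∈ (Zc D (cz P)).subgroupOf D, ∀ u, β ψ (z * u) = lv l z * β ψ u) ↔
          ∀ z : D, (z : G) ∈ Zc D (cz P) → (ψ : G → ℂ) z = (l z : ℂ) * (ψ : G → ℂ) 1) ∧
      ∀ ψ : Bl M (cz P) θ, ∃ N k : ℕ, β ψ 1 = N ∧ N ≠ 0 ∧ (ψ : G → ℂ) 1 = k ∧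
        padicValNat p N + padicValNat p (Nat.card (cz P)) =
          padicValNat p k + padicValNat p (Nat.card D)

end Pool.Agent.FI3
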